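import Pool.Agent.Helper79.GS.St5

/-!
# Project GS (MP_c2d095_lc), module EF
-/

set_option autoImplicit false

namespace Pool.Agent.Helper28.GS

open Pool.Agent.Helper79.GS Pool.Agent.Helper19.SK Pool.Agent.Helper73.DC Finset
open scoped Classical

private theorem ofd (B T r c a b u k m fl d s t x : ℕ) :
    Nat.ofDigits B [T, r, c, a, b, u, k, m, fl, d, s, t, x] =
      T + B * (r + B * (c + B * (a + B * (b + B * (u + B * (k + B * (m + B * (fl + B * (d + B * (s + B * (t + B * x))))))))))) := by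
  simp only [Nat.ofDigits_cons, Nat.ofDigits_nil]
  rfl

theorem hEF (hEW : StEW) (hEB2 : StEB2) (hEA : StEA) : StEF := by
  obtain ⟨_, hnW, _, _, _, _, _, _, hH0, _⟩ := hEW
  obtain ⟨_, _, hmvrv, _⟩ := hEB2
  obtain ⟨_, hwt, hQ, htr, hpadS⟩ := hEA
  have hLL : E2 (α := Fin 5) (fun w _ => LL (nW w)) :=
    e_add (e_mul (e_con 2) (e_mul hnW hnW)) (e_con 1)
  have hPh : ∀ N : VF (Fin 5), E2 N → E2 (fun w v => PhN (N w v) w) := fun N hN =>
    e_pw hN (e_con 2) (e_add (e_mul (e_con 32) (e_powc (e_add hLL (e_con 1)) 2)) e_len)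
  have hNb : ∀ N : VF (Fin 5), E2 N → E2 (fun w v => NbN (N w v) w) := fun N hN =>
    e_pw hN (e_con 3) (e_mul hnW hnW)
  have hnm : ∀ N : VF (Fin 5), E2 N → E2 (fun w v => nmN (N w v) w) := fun N hN =>
    e_pw hN (e_con 2) hLL
  have hSd : ∀ N : VF (Fin 5), E2 N → E2 (fun w v => SdN (N w v) w) := fun N hN =>
    e_mul (e_add (hnm N hN) (e_con 1)) (e_add (hnm N hN) (e_con 2))
  refine ⟨hLL, fun N hN => ⟨hPh N hN, hNb N hN, hnm N hN, hSd N hN⟩, ?_, ?_, ?_, ?_, ?_⟩
  · intro N T r c a b u k m fl d s t x hN hT hr hc ha hb hu hk hm hfl hd hs ht hx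
    have hB := hPh N hN
    have h := e_add hT (e_mul hB (e_add hr (e_mul hB (e_add hc (e_mul hB (e_add ha (e_mul hB (e_add hb
      (e_mul hB (e_add hu (e_mul hB (e_add hk (e_mul hB (e_add hm (e_mul hB (e_add hfl (e_mul hB (e_add hd
      (e_mul hB (e_add hs (e_mul hB (e_add ht (e_mul hB hx)))))))))))))))))))))))
    simp only [zz, ofd]
    exact h
  · intro N Z I hN hZ hI
    exact e_dg (hPh N hN) hZ hI
  · intro N C U X hN hC hU hX
    refine ⟨e_and (hmvrv N (fun w _ => nW w) C U X hN hnW hC hU hX).2 (e_and (e_not (hH0 X hX)) (e_ne hX hU)), ?_⟩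
    exact e_and (hmvrv N (fun w _ => nW w) C U X hN hnW hC hU hX).1
      (e_and (e_not (hmvrv N (fun w _ => nW w) (fun w v => 1 - C w v) X U hN hnW (e_sub (e_con 1) hC) hX hU).1)
        (e_not (hH0 X hX)))
  · intro N m s t x y hN hm hs ht hx hy
    have hn := hnm N hN
    obtain ⟨hK, hI, hJ⟩ := htr (fun w v => nmN (N w v) w) s t hn hs ht
    obtain ⟨-, -, hxq, -⟩ := hQ N (fun w _ => LL (nW w)) x hN hLL hx
    have hxq1 := e_add hxq (e_con 1)
    have hev := (hwt N (fun w _ => LL (nW w)) x _ _ hN hLL hx hI hJ).2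
    have hP := hpadS (fun w v => NbN (N w v) w) m _ _ (hNb N hN) hm hI hJ
    have hlt := e_and (e_lt hI (hNb N hN)) (e_and (e_lt hJ (hNb N hN)) (e_ne hy (e_con 0)))
    have h := e_ite (e_eq hK (e_con 1)) (e_mod (e_con 1) hxq1)
      (e_ite (e_eq hK (e_con 0)) (e_con 0) (e_ite (e_or hlt hP)
        (e_ite (e_eq hK (e_con 2)) (e_mod (e_sub hxq1 hev) hxq1) hev) (e_con 0)))
    convert h using 3
    unfold entN
    congr!
  · intro p hp
    unfold b01
    exact hp

end Pool.Agent.Helper28.GS
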